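import Pool.Agent.MP4eb715.Transfer

/-!
MP_4eb715_lc, question Q1: it is decidable whether a regular tree language, given by a finite
bottom-up tree automaton, is a tree substitution language over its ranked alphabet.
-/

namespace Pool.Agent.Results.MP_4eb715_lc.TSLDecidable

open MP4eb715

/-- The problem `given a ranked alphabet and a finite tree automaton over it, is its language a
tree substitution language over the same alphabet` is decidable. -/
theorem result : ComputablePred fun c : Code => IsTSL (lang c) :=
  computablePred_isTSL

end Pool.Agent.Results.MP_4eb715_lc.TSLDecidable
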